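import Pool.Agent.SelbergND.Count

/-!
# Unfolding inequality

A measurable set `A` of the upper half plane which meets every orbit of `Γ` in at most `M` points and every
point of which is equivalent to a point of `S` has area at most `M` times the area of `S`.
-/

open Set MeasureTheory UpperHalfPlane
open scoped MatrixGroups ENNReal

namespace Pool.Agent.FKU

open Pool.Agent.Selberg Pool.Agent.SelbergND

theorem volume_le_of_orbit_count {Γ : Subgroup SL(2, ℤ)} {A S : Set ℍ} (hA : MeasurableSet A)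
    (hS : MeasurableSet S) (hcov : ∀ z ∈ A, ∃ γ ∈ Γ, γ • z ∈ S) {M : ℕ}
    (hM : ∀ z ∈ S, ∀ P : Finset ℍ, (∀ p ∈ P, p ∈ A ∧ ∃ γ ∈ Γ, γ • z = p) → P.card ≤ M) :
    volume A ≤ M * volume S := by
  classical
  obtain ⟨e, he⟩ := exists_surjective_nat Γ
  set B : ℕ → Set ℍ := fun n => A ∩ (fun z : ℍ => (e n : SL(2, ℤ)) • z) ⁻¹' S with hB
  have hBm : ∀ n, MeasurableSet (B n) := fun n =>
    hA.inter ((continuous_slsmul (e n : SL(2, ℤ))).measurable hS)
  set D : ℕ → Set ℍ := disjointed B with hD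
  have hDm : ∀ n, MeasurableSet (D n) := fun n => MeasurableSet.disjointed hBm n
  have hDB : ∀ n, D n ⊆ B n := fun n => disjointed_subset B n
  have hDd : Pairwise (Function.onFun Disjoint D) := disjoint_disjointed B
  have hAU : A = ⋃ n, D n := by
    rw [hD, iUnion_disjointed]
    apply Subset.antisymm
    · intro z hz
      obtain ⟨γ, hγ, hγz⟩ := hcov z hz
      obtain ⟨n, hn⟩ := he ⟨γ, hγ⟩
      refine mem_iUnion.2 ⟨n, hz, ?_⟩
      show (e n : SL(2, ℤ)) • z ∈ S
      rw [hn]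
      exact hγz
    · exact iUnion_subset fun n => inter_subset_left
  set C : ℕ → Set ℍ := fun n => (fun z : ℍ => ((e n : SL(2, ℤ))⁻¹) • z) ⁻¹' (D n) with hC
  have hCm : ∀ n, MeasurableSet (C n) := fun n =>
    (continuous_slsmul ((e n : SL(2, ℤ))⁻¹)).measurable (hDm n)
  have hvol : ∀ n, volume (D n) = volume (C n) := fun n =>
    ((measurePreserving_sl ((e n : SL(2, ℤ))⁻¹)).measure_preimage (hDm n).nullMeasurableSet).symm
  have hCS : ∀ n, C n ⊆ S := by
    intro n z hz
    have h1 : ((e n : SL(2, ℤ))⁻¹) • z ∈ B n := hDB n hz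
    have h2 : (e n : SL(2, ℤ)) • ((e n : SL(2, ℤ))⁻¹) • z ∈ S := h1.2
    rwa [smul_inv_smul] at h2
  have hpt : ∀ z, ∑' n, (C n).indicator (fun _ => (1 : ℝ≥0∞)) z ≤ S.indicator (fun _ => (M : ℝ≥0∞)) z := by
    intro z
    by_cases hz : z ∈ S
    · rw [indicator_of_mem hz, ENNReal.tsum_eq_iSup_sum]
      refine iSup_le fun F => ?_
      have h1 : ∑ n ∈ F, (C n).indicator (fun _ => (1 : ℝ≥0∞)) z = ((F.filter fun n => z ∈ C n).card : ℝ≥0∞) := by
        rw [Finset.card_filter]
        push_cast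
        refine Finset.sum_congr rfl fun n _ => ?_
        by_cases hn : z ∈ C n
        · rw [indicator_of_mem hn, if_pos hn]
        · rw [indicator_of_notMem hn, if_neg hn]
      rw [h1]
      have hinj : Set.InjOn (fun n => ((e n : SL(2, ℤ))⁻¹) • z) ((F.filter fun n => z ∈ C n) : Set ℕ) := by
        intro n hn m hm hnm
        have hn' : ((e n : SL(2, ℤ))⁻¹) • z ∈ D n := (Finset.mem_filter.1 hn).2
        have hm' : ((e m : SL(2, ℤ))⁻¹) • z ∈ D m := (Finset.mem_filter.1 hm).2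
        by_contra hne
        have h2 := Set.disjoint_left.1 (hDd hne) hn'
        apply h2
        have h3 : ((e n : SL(2, ℤ))⁻¹) • z = ((e m : SL(2, ℤ))⁻¹) • z := hnm
        rw [h3]
        exact hm'
      have h4 := hM z hz ((F.filter fun n => z ∈ C n).image fun n => ((e n : SL(2, ℤ))⁻¹) • z) (by
        intro p hp
        obtain ⟨n, hn, rfl⟩ := Finset.mem_image.1 hp
        have hn' : ((e n : SL(2, ℤ))⁻¹) • z ∈ D n := (Finset.mem_filter.1 hn).2
        exact ⟨(hDB n hn').1, (e n : SL(2, ℤ))⁻¹, Γ.inv_mem (e n).2, rfl⟩)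
      rw [Finset.card_image_of_injOn hinj] at h4
      exact_mod_cast h4
    · rw [indicator_of_notMem hz]
      have : ∀ n, (C n).indicator (fun _ => (1 : ℝ≥0∞)) z = 0 := fun n =>
        indicator_of_notMem (fun h => hz (hCS n h)) _
      simp [this]
  calc volume A = volume (⋃ n, D n) := by rw [← hAU]
    _ = ∑' n, volume (D n) := measure_iUnion hDd hDm
    _ = ∑' n, volume (C n) := by simp_rw [hvol]
    _ = ∑' n, ∫⁻ z, (C n).indicator (fun _ => (1 : ℝ≥0∞)) z := by
        refine tsum_congr fun n => ?_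
        rw [lintegral_indicator (hCm n)]
        simp
    _ = ∫⁻ z, ∑' n, (C n).indicator (fun _ => (1 : ℝ≥0∞)) z :=
        (lintegral_tsum fun n => (measurable_const.indicator (hCm n)).aemeasurable).symm
    _ ≤ ∫⁻ z, S.indicator (fun _ => (M : ℝ≥0∞)) z := lintegral_mono hpt
    _ = M * volume S := by
        rw [lintegral_indicator hS]
        simp

/-- the injective case -/
theorem volume_le_of_inj {Γ : Subgroup SL(2, ℤ)} {A S : Set ℍ} (hA : MeasurableSet A)
    (hS : MeasurableSet S) (hcov : ∀ z ∈ A, ∃ γ ∈ Γ, γ • z ∈ S)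
    (hinj : ∀ z ∈ A, ∀ γ ∈ Γ, γ • z ∈ A → γ • z = z) : volume A ≤ volume S := by
  have h := volume_le_of_orbit_count hA hS hcov (M := 1) (fun z _ P hP => by
    rw [Finset.card_le_one]
    intro a ha b hb
    obtain ⟨ha1, γ, hγ, hγa⟩ := hP a ha
    obtain ⟨hb1, δ, hδ, hδb⟩ := hP b hb
    have h1 : (γ * δ⁻¹) • b = a := by
      rw [← hδb, mul_smul, inv_smul_smul, hγa]
    have h2 := hinj b hb1 (γ * δ⁻¹) (Γ.mul_mem hγ (Γ.inv_mem hδ)) (by rw [h1]; exact ha1)
    rw [h1] at h2
    exact h2)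
  simpa using h

end Pool.Agent.FKU
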